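import Pool.Agent.helper43.NO.C2

open Finset Filter

namespace Pool.Agent.helper43.NO

open Pool.Agent.helper94.DivMax

lemma om_le (P : Finset ℕ) (m : ℕ) (hP : ∀ p ∈ P, p.Prime) (hm : m ≠ 0) :
    om P m ≤ m.primeFactors.card := by
  unfold om
  apply card_le_card
  intro p hp
  rw [mem_filter] at hp
  rw [Nat.mem_primeFactors]
  exact ⟨hP p hp.1, hp.2, hm⟩

/-- eventual inequality used for `z^(2R)` -/
lemma ev_z (A D θ : ℝ) (hA : 0 ≤ A) (hD : 0 ≤ D) (hθ0 : 0 < θ) (hθ : θ < 1) :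
    ∀ᶠ l : ℝ in atTop, 2 + (A * Real.log l + D) * l ^ θ ≤ l / 2 := by
  set e : ℝ := (1 - θ) / 2 with he
  have he0 : 0 < e := by rw [he]; linarith
  have hlo : ∀ᶠ l : ℝ in atTop, ‖Real.log l‖ ≤ 1 * ‖l ^ e‖ :=
    (isLittleO_log_rpow_atTop he0).bound one_pos
  have h1 := ev_le (show θ + e < 1 by rw [he]; linarith) (show (0:ℝ) < 8 * (A + D + 1) by positivity)
  filter_upwards [hlo, h1, eventually_ge_atTop 8] with l h2 h3 h4
  have hl0 : 0 < l := by linarith
  have hl1 : 1 ≤ l := by linarith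
  have hlog : 0 ≤ Real.log l := Real.log_nonneg hl1
  have hle : 0 < l ^ e := by positivity
  rw [Real.norm_of_nonneg hlog, Real.norm_of_nonneg hle.le, one_mul] at h2
  have hle1 : 1 ≤ l ^ e := Real.one_le_rpow hl1 he0.le
  have h5 : (A * Real.log l + D) * l ^ θ ≤ (A + D) * l ^ (θ + e) := by
    have h6 : A * Real.log l + D ≤ (A + D) * l ^ e := by
      have h7 : A * Real.log l ≤ A * l ^ e := by gcongr
      have h8 : D * 1 ≤ D * l ^ e := by gcongr
      linarith
    calc (A * Real.log l + D) * l ^ θ ≤ ((A + D) * l ^ e) * l ^ θ := by gcongr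
      _ = (A + D) * (l ^ θ * l ^ e) := by ring
      _ = (A + D) * l ^ (θ + e) := by rw [← Real.rpow_add hl0]
  rw [Real.rpow_one] at h3
  have h6 : 0 ≤ l ^ (θ + e) := by positivity
  nlinarith

theorem lower_exc (y u : ℝ) (hy : 1 < y) (h1 : y * Real.log y - y + 1 < u)
    (h2 : u < y * Real.log 2) : ∃ δ : ℝ, 0 < δ ∧ ∃ X : ℕ, ∀ x : ℕ, X ≤ x →
    ∀ B : Finset ℕ, (∀ n ∈ B, 1 ≤ n ∧ n ≤ x ∧ ∀ m ∈ Ico 1 n,
      (m.divisors.card : ℝ) + m - n ≤ Real.log x ^ u) →
    (B.card : ℝ) ≤ x * Real.log x ^ (-δ) := by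
  obtain ⟨κ, η, h, t, hκ0, hκu, hη, hη2, hh, ht, ht1, hyt, huh, c, hc, hE1, hE3, hE4⟩ :=
    params y u hy h1 h2
  obtain ⟨Cm, hCm⟩ := SUB.mertens_upper
  set C0 : ℝ := max Cm 0 with hC0
  have hC00 : 0 ≤ C0 := le_max_right _ _
  set Cst : ℝ := Real.exp ((y - 1) ^ 2) * (12 + 4 * Real.exp (y * C0)) with hCst
  have hCst0 : 0 < Cst := by rw [hCst]; positivity
  have hl2 : 0 < Real.log 2 := Real.log_pos (by norm_num)
  have hv : 0 < y - 1 := by linarith
  set u2 : ℝ := (y - h) * Real.log 2 with hu2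
  have hu0 : 0 < u := by linarith
  -- eventual facts
  have e2 := SS_lower (1 - η) η hη (by linarith)
  have e3 : ∀ᶠ l : ℝ in atTop, l ^ κ ≤ Real.exp (l ^ (η / 3)) := by
    have h3 : Tendsto (fun l : ℝ => l ^ (η / 3)) atTop atTop := tendsto_rpow_atTop (by positivity)
    have h4 : ∀ᶠ r : ℝ in atTop, r ^ (κ * 3 / η) ≤ Real.exp r := by
      have h5 := (isLittleO_rpow_exp_atTop (κ * 3 / η)).bound one_pos
      filter_upwards [h5, eventually_ge_atTop 0] with r h6 h7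
      rw [Real.norm_of_nonneg (by positivity), Real.norm_of_nonneg (Real.exp_pos _).le,
        one_mul] at h6
      exact h6
    filter_upwards [h3.eventually h4, eventually_gt_atTop 0] with l h5 h6
    have h7 : (l ^ (η / 3)) ^ (κ * 3 / η) = l ^ κ := by
      rw [← Real.rpow_mul h6.le]
      congr 1
      field_simp
    rw [h7] at h5
    exact h5
  have e4 := ev_z (6 * (y - 1)) (6 * (y - 1) * C0 + 2 * (y - 1) ^ 2 + 4) (1 - η)
    (by positivity) (by positivity) (by linarith) (by linarith)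
  have e5 : ∀ᶠ l : ℝ in atTop, 2 ≤ l ^ κ := (tendsto_rpow_atTop hκ0).eventually_ge_atTop 2
  have e6 : ∀ᶠ l : ℝ in atTop, 3 * l ^ u ≤ l ^ u2 := ev_le huh (by norm_num)
  have e8 : ∀ᶠ l : ℝ in atTop, l ^ κ ≤ Real.exp (l / 2) := by
    have h5 := (isLittleO_rpow_exp_pos_mul_atTop κ (show (0:ℝ) < 1 / 2 by norm_num)).bound one_pos
    filter_upwards [h5, eventually_ge_atTop 0] with r h6 h7
    rw [Real.norm_of_nonneg (by positivity), Real.norm_of_nonneg (Real.exp_pos _).le,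
      one_mul] at h6
    rw [show r / 2 = 1 / 2 * r by ring]
    exact h6
  have e9 : ∀ᶠ l : ℝ in atTop, 2 * Cst * l ^ (c / 2) ≤ l ^ c :=
    ev_le (by linarith) (by positivity)
  have e10 : ∀ᶠ l : ℝ in atTop, 4 * l ^ (c / 2) ≤ Real.exp (l / 2) := by
    have h5 := (isLittleO_rpow_exp_pos_mul_atTop (c / 2)
      (show (0:ℝ) < 1 / 2 by norm_num)).bound (show (0:ℝ) < 1 / 4 by norm_num)
    filter_upwards [h5, eventually_ge_atTop 0] with r h6 h7
    rw [Real.norm_of_nonneg (by positivity), Real.norm_of_nonneg (Real.exp_pos _).le] at h6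
    rw [show r / 2 = 1 / 2 * r by ring]
    linarith
  have hall := (((((((e2.and e3).and e4).and e5).and e6).and e8).and e9).and e10).and
    (eventually_ge_atTop (1 : ℝ))
  have htend : Tendsto (fun x : ℕ => Real.log (x : ℝ)) atTop atTop :=
    Real.tendsto_log_atTop.comp tendsto_natCast_atTop_atTop
  obtain ⟨X, hX⟩ := eventually_atTop.mp (htend.eventually hall)
  refine ⟨c / 2, by positivity, max X 1, fun x hx B hB => ?_⟩
  obtain ⟨⟨⟨⟨⟨⟨⟨⟨f2, f3⟩, f4⟩, f5⟩, f6⟩, f8⟩, f9⟩, f10⟩, f1⟩ := hX x (le_of_max_le_left hx)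
  have hx1 : 1 ≤ x := le_of_max_le_right hx
  have hx0 : (0 : ℝ) < x := by exact_mod_cast hx1
  set l : ℝ := Real.log x with hl
  have hxe : (x : ℝ) = Real.exp l := by rw [hl, Real.exp_log hx0]
  have hl0 : 0 < l := by linarith
  set Λ : ℝ := Real.log l with hΛ
  have hΛ0 : 0 ≤ Λ := Real.log_nonneg f1
  set K : ℕ := ⌊l ^ κ⌋₊ with hK
  set z0 : ℕ := ⌊Real.exp (l ^ (η / 3))⌋₊ with hz0
  set z : ℕ := ⌊Real.exp (l ^ (1 - η))⌋₊ with hz
  set P : Finset ℕ := PP z0 z with hP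
  have hKz : K ≤ z0 := Nat.floor_mono f3
  have hlκ : (K : ℝ) ≤ l ^ κ := Nat.floor_le (by positivity)
  have hlκ' : l ^ κ / 2 ≤ K := by
    have := Nat.lt_floor_add_one (l ^ κ)
    rw [← hK] at this
    linarith
  have hK1 : 1 ≤ K := by
    have h3 : (1 : ℝ) ≤ K := by linarith
    exact_mod_cast h3
  have hexphalf : Real.exp (l / 2) ≤ x := by
    rw [hxe, Real.exp_le_exp]; linarith
  have hKx : K ≤ x := by
    have h3 : (K : ℝ) ≤ x := by linarith
    exact_mod_cast h3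
  have hzle : (z : ℝ) ≤ Real.exp (l ^ (1 - η)) := Nat.floor_le (Real.exp_pos _).le
  have hz2 : 2 ≤ z := by
    rw [hz]
    apply Nat.le_floor
    have h3 : (1 : ℝ) ≤ l ^ (1 - η) := Real.one_le_rpow f1 (by linarith)
    have h4 : Real.exp 1 ≤ Real.exp (l ^ (1 - η)) := Real.exp_le_exp.mpr h3
    have h5 := Real.exp_one_gt_d9
    push_cast
    linarith
  have hPP : ∀ p ∈ P, p.Prime ∧ K < p ∧ p ≤ z := by
    intro p hp
    rw [hP, mem_PP] at hp
    exact ⟨hp.1, by omega, hp.2.2⟩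
  have hs1 : (1 - 2 * η) * Λ ≤ ∑ p ∈ P, 1 / (p : ℝ) := by
    have h3 : (1 - η - η) * Real.log l ≤ ∑ p ∈ P, 1 / (p : ℝ) := f2
    have h4 : 1 - η - η = 1 - 2 * η := by ring
    rw [h4] at h3
    exact h3
  have hs2 : ∑ p ∈ P, 1 / (p : ℝ) ≤ Λ + C0 := by
    have h3 := hCm z hz2
    have h4 : ∑ p ∈ P, 1 / (p : ℝ) ≤ ∑ p ∈ (Finset.Icc 1 z).filter Nat.Prime, 1 / (p : ℝ) := by
      apply sum_le_sum_of_subset_of_nonneg
      · intro p hp
        have h5 := hPP p hp
        rw [mem_filter, mem_Icc]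
        exact ⟨⟨h5.1.one_lt.le, h5.2.2⟩, h5.1⟩
      · intro p _ _; positivity
    have h5 : Real.log (Real.log z) ≤ Λ := by
      have hz1 : (1 : ℝ) < z := by exact_mod_cast (by omega : 1 < z)
      have h6 : Real.log z ≤ l ^ (1 - η) := by
        rw [Real.log_le_iff_le_exp (by linarith)]
        exact hzle
      have h7 : l ^ (1 - η) ≤ l := by
        calc l ^ (1 - η) ≤ l ^ (1 : ℝ) := Real.rpow_le_rpow_of_exponent_le f1 (by linarith)
          _ = l := Real.rpow_one l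
      exact Real.log_le_log (Real.log_pos hz1) (by linarith)
    have h6 : Cm ≤ C0 := le_max_left _ _
    linarith
  set R : ℕ := ⌈3 * (y - 1) * (Λ + C0) + (y - 1) ^ 2 + 1⌉₊ with hR
  have hR1 : 3 * (y - 1) * (Λ + C0) + (y - 1) ^ 2 + 1 ≤ R := Nat.le_ceil _
  have hR2 : (R : ℝ) ≤ 3 * (y - 1) * (Λ + C0) + (y - 1) ^ 2 + 2 := by
    have h3 : 0 ≤ 3 * (y - 1) * (Λ + C0) + (y - 1) ^ 2 + 1 := by positivity
    have := (Nat.ceil_lt_add_one h3).le
    linarith
  have hW : 3 * (z : ℝ) ^ (2 * R) ≤ Real.exp (l / 2) := by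
    have h3 : (z : ℝ) ^ (2 * R) ≤ Real.exp (l ^ (1 - η)) ^ (2 * R) := by gcongr
    have h4 : Real.exp (l ^ (1 - η)) ^ (2 * R) = Real.exp (2 * R * l ^ (1 - η)) := by
      rw [← Real.exp_nat_mul]; push_cast; ring_nf
    have h5 : (3 : ℝ) ≤ Real.exp 2 := by
      have h6 : Real.exp 2 = Real.exp 1 * Real.exp 1 := by rw [← Real.exp_add]; norm_num
      have h7 := Real.exp_one_gt_d9
      rw [h6]; nlinarith
    calc 3 * (z : ℝ) ^ (2 * R) ≤ Real.exp 2 * Real.exp (2 * R * l ^ (1 - η)) := by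
          rw [h4] at h3; gcongr
      _ = Real.exp (2 + 2 * R * l ^ (1 - η)) := by rw [Real.exp_add]
      _ ≤ Real.exp (l / 2) := by
          rw [Real.exp_le_exp]
          have h6 : 0 ≤ l ^ (1 - η) := by positivity
          have h7 : 2 * (R : ℝ) * l ^ (1 - η) ≤
              2 * (3 * (y - 1) * (Λ + C0) + (y - 1) ^ 2 + 2) * l ^ (1 - η) := by gcongr
          have h8 : 2 * (3 * (y - 1) * (Λ + C0) + (y - 1) ^ 2 + 2) =
              6 * (y - 1) * Λ + (6 * (y - 1) * C0 + 2 * (y - 1) ^ 2 + 4) := by ring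
          rw [h8] at h7
          linarith
  -- the main part
  have hB1 := count2 P K x z R y κ η h t c Λ C0 (Real.exp (l / 2)) hPP (by omega) hK1 hKx hy hη hη2
    ht ht1 hyt hC00 hΛ0 hs1 hs2 hR1 hE1 hE3 hE4
    (by
      have h3 : Real.exp (κ * Λ) = l ^ κ := by
        rw [Real.rpow_def_of_pos hl0, hΛ]; ring_nf
      rw [h3]; exact hlκ') hW hexphalf (B.filter (fun n => K < n)) (by
      intro n hn
      rw [mem_filter] at hn
      obtain ⟨hnB, hKn⟩ := hn
      obtain ⟨-, hnx, hm⟩ := hB n hnB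
      refine ⟨hKn, hnx, fun k hk hcon => ?_⟩
      rw [mem_Icc] at hk
      have h3 := hm (n - k) (by rw [mem_Ico]; omega)
      have h4 : (n - k) ≠ 0 := by omega
      have h5 := two_pow_le_card_divisors (n - k) h4
      have h6 := om_le P (n - k) (fun p hp => (hPP p hp).1) h4
      have h7 : (2 : ℝ) ^ (om P (n - k)) ≤ ((n - k).divisors.card : ℝ) := by
        have : 2 ^ (om P (n - k)) ≤ (n - k).divisors.card :=
          (Nat.pow_le_pow_right (by norm_num) h6).trans h5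
        exact_mod_cast this
      have h8 : l ^ u2 ≤ (2 : ℝ) ^ (om P (n - k)) := by
        rw [Real.rpow_def_of_pos hl0, ← Real.rpow_natCast, Real.rpow_def_of_pos (by norm_num),
          Real.exp_le_exp, hu2]
        have h9 : (y - h) * Λ * Real.log 2 ≤ (om P (n - k) : ℝ) * Real.log 2 := by
          have := hcon.1
          gcongr
        nlinarith
      rw [Nat.cast_sub (by omega)] at h3
      have h9 : (k : ℝ) ≤ l ^ κ := by
        have : (k : ℝ) ≤ K := by exact_mod_cast hk.2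
        linarith
      have h10 : l ^ κ ≤ l ^ u := Real.rpow_le_rpow_of_exponent_le f1 hκu.le
      have h11 : 0 < l ^ u := by positivity
      linarith)
  have hB2 : ((B.filter (fun n => ¬ K < n)).card : ℝ) ≤ Real.exp (l / 2) := by
    have h3 : (B.filter (fun n => ¬ K < n)).card ≤ (Icc 1 K).card := by
      apply card_le_card
      intro n hn
      rw [mem_filter] at hn
      rw [mem_Icc]
      have := (hB n hn.1).1
      omega
    rw [Nat.card_Icc, Nat.add_sub_cancel] at h3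
    have h4 : ((B.filter (fun n => ¬ K < n)).card : ℝ) ≤ K := by exact_mod_cast h3
    linarith
  have hcard : (B.card : ℝ) = ((B.filter (fun n => K < n)).card : ℝ) +
      ((B.filter (fun n => ¬ K < n)).card : ℝ) := by
    rw [← Nat.cast_add, ← Finset.card_filter_add_card_filter_not (fun n => K < n)]
  rw [← hCst] at hB1
  -- numerics
  have hp1 : Real.exp (-(c * Λ)) = l ^ (-c) := by
    rw [Real.rpow_def_of_pos hl0, hΛ]; ring_nf
  rw [hp1] at hB1
  have g1 : Cst * (x * l ^ (-c)) ≤ x * l ^ (-(c / 2)) / 2 := by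
    have h3 : Cst * l ^ (-c) ≤ l ^ (-(c / 2)) / 2 := by
      have h4 : l ^ (-(c / 2)) = l ^ (c / 2) * l ^ (-c) := by
        rw [← Real.rpow_add hl0]; ring_nf
      have h5 : 2 * Cst * l ^ (c / 2) * (l ^ (-c) * l ^ (-(c / 2))) ≤
          l ^ c * (l ^ (-c) * l ^ (-(c / 2))) := by gcongr
      have h6 : l ^ c * (l ^ (-c) * l ^ (-(c / 2))) = l ^ (-(c / 2)) := by
        rw [← mul_assoc, ← Real.rpow_add hl0, add_neg_cancel, Real.rpow_zero, one_mul]
      have h7 : 2 * Cst * l ^ (c / 2) * (l ^ (-c) * l ^ (-(c / 2))) = 2 * (Cst * l ^ (-c)) := by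
        have h8 : l ^ (c / 2) * l ^ (-(c / 2)) = 1 := by
          rw [← Real.rpow_add hl0, add_neg_cancel, Real.rpow_zero]
        calc _ = 2 * (Cst * l ^ (-c)) * (l ^ (c / 2) * l ^ (-(c / 2))) := by ring
          _ = _ := by rw [h8, mul_one]
      rw [h6, h7] at h5
      linarith
    calc Cst * (x * l ^ (-c)) = x * (Cst * l ^ (-c)) := by ring
      _ ≤ x * (l ^ (-(c / 2)) / 2) := by gcongr
      _ = _ := by ring
  have g2 : 2 * Real.exp (l / 2) ≤ x * l ^ (-(c / 2)) / 2 := by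
    have h3 : 4 * l ^ (c / 2) * (Real.exp (l / 2) * l ^ (-(c / 2))) ≤
        Real.exp (l / 2) * (Real.exp (l / 2) * l ^ (-(c / 2))) := by gcongr
    have h4 : Real.exp (l / 2) * Real.exp (l / 2) = x := by
      rw [← Real.exp_add, hxe]; ring_nf
    have h8 : l ^ (c / 2) * l ^ (-(c / 2)) = 1 := by
      rw [← Real.rpow_add hl0, add_neg_cancel, Real.rpow_zero]
    have h5 : 4 * l ^ (c / 2) * (Real.exp (l / 2) * l ^ (-(c / 2))) = 4 * Real.exp (l / 2) := by
      calc _ = 4 * Real.exp (l / 2) * (l ^ (c / 2) * l ^ (-(c / 2))) := by ring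
        _ = _ := by rw [h8, mul_one]
    rw [h5, ← mul_assoc, h4] at h3
    linarith
  rw [hcard]
  linarith

end Pool.Agent.helper43.NO
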