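import Mathlib

/-!
Normal order of `max_{m<n} (τ(m)+m-n)`: definitions.
-/

open Finset

namespace Pool.Agent.helper43.NO

/-- number of `p ∈ P` dividing `m` -/
def om (P : Finset ℕ) (m : ℕ) : ℕ := (P.filter (fun p => p ∣ m)).card

/-- subsets of `P` with at most `R` elements -/
def fam (P : Finset ℕ) (R : ℕ) : Finset (Finset ℕ) := P.powerset.filter (fun T => T.card ≤ R)

/-- the weight -/
noncomputable def w (P : Finset ℕ) (R : ℕ) (v : ℝ) (m : ℕ) : ℝ :=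
  ∑ T ∈ fam P R, if (∏ p ∈ T, p) ∣ m then v ^ T.card else 0

/-- its mean value -/
noncomputable def M (P : Finset ℕ) (R : ℕ) (v : ℝ) : ℝ :=
  ∑ T ∈ fam P R, v ^ T.card / ((∏ p ∈ T, p : ℕ) : ℝ)

/-- `∏_{p ∈ P} (1 + u/p)` -/
noncomputable def pr (P : Finset ℕ) (u : ℝ) : ℝ := ∏ p ∈ P, (1 + u / (p : ℝ))

end Pool.Agent.helper43.NO
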