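import Pool.Agent.helper32.NO.A3
import Pool.Agent.helper71.NO.A5
import Pool.Agent.helper94.DivMain
import Pool.Agent.helper23.SUB.Mertens

open Finset Filter

namespace Pool.Agent.helper43.NO

open Pool.Agent.helper94.DivMax

/-- choice of the parameters -/
lemma params (y u : ℝ) (hy : 1 < y) (h1 : y * Real.log y - y + 1 < u)
    (h2 : u < y * Real.log 2) : ∃ κ η h t : ℝ, 0 < κ ∧ κ < u ∧ 0 < η ∧ η < 1 / 2 ∧ 0 < h ∧
      0 < t ∧ t ≤ 1 ∧ 1 ≤ y / (1 + t) ∧ u < (y - h) * Real.log 2 ∧
      (∃ c : ℝ, 0 < c ∧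
        (y + h) * Real.log y - (y - 1) * (1 - 2 * η) - κ ≤ -c ∧
        y * t - (y + h) * Real.log (1 + t) ≤ -c ∧
        (y * (1 / (1 + t)) - y) * (1 - 2 * η) + (y - h) * Real.log (1 + t) ≤ -c) := by
  have hl2 : 0 < Real.log 2 := Real.log_pos (by norm_num)
  have hly : 0 < Real.log y := Real.log_pos hy
  set c1 : ℝ := (u - (y * Real.log y - y + 1)) / 2 with hc1
  have hc1p : 0 < c1 := by rw [hc1]; linarith
  set c2 : ℝ := (y * Real.log 2 - u) / (2 * Real.log 2) with hc2
  have hc2p : 0 < c2 := by rw [hc2]; apply div_pos <;> linarith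
  set h : ℝ := min (min c2 (c1 / (4 * Real.log y))) y with hh
  have hhp : 0 < h := by
    rw [hh]; apply lt_min (lt_min hc2p (by positivity)) (by linarith)
  have hhc2 : h ≤ c2 := by rw [hh]; exact (min_le_left _ _).trans (min_le_left _ _)
  have hhc1 : h * Real.log y ≤ c1 / 4 := by
    have h3 : h ≤ c1 / (4 * Real.log y) := by
      rw [hh]; exact (min_le_left _ _).trans (min_le_right _ _)
    calc h * Real.log y ≤ c1 / (4 * Real.log y) * Real.log y := by gcongr
      _ = c1 / 4 := by field_simp
  have hhy : h ≤ y := by rw [hh]; exact min_le_right _ _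
  set η : ℝ := min (min (1 / 4) (c1 / (8 * (y - 1)))) (h / (8 * y)) with hη
  have hηp : 0 < η := by
    rw [hη]
    have : 0 < y - 1 := by linarith
    have : 0 < y := by linarith
    apply lt_min (lt_min (by norm_num) (by positivity)) (by positivity)
  have hη4 : η ≤ 1 / 4 := by rw [hη]; exact (min_le_left _ _).trans (min_le_left _ _)
  have hηc1 : 2 * η * (y - 1) ≤ c1 / 4 := by
    have h3 : η ≤ c1 / (8 * (y - 1)) := by
      rw [hη]; exact (min_le_left _ _).trans (min_le_right _ _)
    have hy1 : 0 < y - 1 := by linarith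
    calc 2 * η * (y - 1) ≤ 2 * (c1 / (8 * (y - 1))) * (y - 1) := by gcongr
      _ = c1 / 4 := by field_simp; ring
  have hηh : 8 * y * η ≤ h := by
    have h3 : η ≤ h / (8 * y) := by rw [hη]; exact min_le_right _ _
    have hy0 : 0 < y := by linarith
    calc 8 * y * η ≤ 8 * y * (h / (8 * y)) := by gcongr
      _ = h := by field_simp
  set t : ℝ := min (min (h / (4 * y)) (y - 1)) 1 with ht
  have hy0 : 0 < y := by linarith
  have htp : 0 < t := by
    rw [ht]
    apply lt_min (lt_min (by positivity) (by linarith)) (by norm_num)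
  have ht1 : t ≤ 1 := by rw [ht]; exact min_le_right _ _
  have hty : t ≤ y - 1 := by rw [ht]; exact (min_le_left _ _).trans (min_le_right _ _)
  have hth : 4 * y * t ≤ h := by
    have h3 : t ≤ h / (4 * y) := by rw [ht]; exact (min_le_left _ _).trans (min_le_left _ _)
    calc 4 * y * t ≤ 4 * y * (h / (4 * y)) := by gcongr
      _ = h := by field_simp
  -- bounds for the logarithm
  have hlog1 : Real.log (1 + t) ≤ t := by
    have := Real.log_le_sub_one_of_pos (show (0:ℝ) < 1 + t by linarith)
    linarith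
  have hlog2 : t - t ^ 2 / 2 ≤ Real.log (1 + t) := by
    have h5 := Real.le_log_one_add_of_nonneg htp.le
    have h6 : t - t ^ 2 / 2 ≤ 2 * t / (t + 2) := by
      rw [le_div_iff₀ (by linarith)]
      nlinarith [mul_pos htp htp, mul_pos (mul_pos htp htp) htp]
    linarith
  refine ⟨y * Real.log y - y + 1 + c1, η, h, t, ?_, ?_, hηp, by linarith, hhp, htp, ht1, ?_, ?_, ?_⟩
  · have : 0 ≤ y * Real.log y - y + 1 := by
      have h7 := Real.one_sub_inv_le_log_of_pos hy0
      have h8 : y * (1 - y⁻¹) ≤ y * Real.log y := by gcongr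
      have h9 : y * (1 - y⁻¹) = y - 1 := by field_simp
      linarith
    linarith
  · rw [hc1]; linarith
  · rw [le_div_iff₀ (by linarith)]; linarith
  · have h7 : h * (2 * Real.log 2) ≤ y * Real.log 2 - u := by
      have : c2 * (2 * Real.log 2) = y * Real.log 2 - u := by rw [hc2]; field_simp
      rw [← this]; gcongr
    nlinarith
  · refine ⟨min (c1 / 2) (t * h / 4), by positivity, ?_, ?_, ?_⟩
    · have := min_le_left (c1 / 2) (t * h / 4)
      nlinarith
    · have h7 := min_le_right (c1 / 2) (t * h / 4)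
      have h8 : (y + h) * (t - t ^ 2 / 2) ≤ (y + h) * Real.log (1 + t) := by
        have : 0 < y + h := by linarith
        gcongr
      have h9 : (y + h) * t ^ 2 / 2 ≤ 2 * y * t ^ 2 / 2 := by
        have : y + h ≤ 2 * y := by linarith
        gcongr
      have h10 : 4 * y * t * t ≤ h * t := by gcongr
      nlinarith
    · have h7 := min_le_right (c1 / 2) (t * h / 4)
      have h8 : (y - h) * Real.log (1 + t) ≤ (y - h) * t := by
        have : 0 ≤ y - h := by linarith
        gcongr
      have h9 : t - t ^ 2 ≤ 1 - 1 / (1 + t) := by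
        have : 1 - 1 / (1 + t) = t / (1 + t) := by field_simp; ring
        rw [this, le_div_iff₀ (by linarith)]
        nlinarith [mul_pos (mul_pos htp htp) htp]
      have h10 : (y * (1 / (1 + t)) - y) * (1 - 2 * η) ≤ -(y * (t - t ^ 2)) * (1 - 2 * η) := by
        have h11 : 0 ≤ 1 - 2 * η := by linarith
        have h12 : y * (1 / (1 + t)) - y ≤ -(y * (t - t ^ 2)) := by
          have : y * (t - t ^ 2) ≤ y * (1 - 1 / (1 + t)) := by gcongr
          linarith
        exact mul_le_mul_of_nonneg_right h12 h11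
      have h13 : 8 * y * η * t ≤ h * t := by gcongr
      have h14 : 4 * y * t * t ≤ h * t := by gcongr
      have h15 : 0 ≤ y * t ^ 2 * η := by positivity
      nlinarith

end Pool.Agent.helper43.NO
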