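import Pool.Agent.helper43.NO.C1

open Finset Filter

namespace Pool.Agent.helper43.NO

open Pool.Agent.helper94.DivMax Pool.Agent.helper32.NO Pool.Agent.helper71.NO

lemma M_lower (P : Finset ℕ) (R : ℕ) (v : ℝ) (hP : ∀ p ∈ P, p.Prime) (hv : 0 ≤ v)
    (hR : 3 * v * (∑ p ∈ P, 1 / (p : ℝ)) + v ^ 2 + 1 ≤ R) :
    Real.exp (v * (∑ p ∈ P, 1 / (p : ℝ)) - v ^ 2) / 2 ≤ M P R v := by
  set s := ∑ p ∈ P, 1 / (p : ℝ) with hs
  have hs0 : 0 ≤ s := sum_nonneg (fun p _ => by positivity)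
  have h1 := M_ge P R v hP hv
  have h2 := pr_ge P v hP hv
  have h3 := pr_le P (Real.exp 1 * v) (by positivity)
  rw [← hs] at h2 h3
  have h4 : Real.exp (-(R : ℝ)) * pr P (Real.exp 1 * v) ≤ Real.exp (v * s - v ^ 2) / 2 := by
    have h5 : Real.exp (-(R : ℝ)) * pr P (Real.exp 1 * v) ≤
        Real.exp (-(R : ℝ)) * Real.exp (Real.exp 1 * v * s) := by gcongr
    have h6 : Real.exp (-(R : ℝ)) * Real.exp (Real.exp 1 * v * s) ≤ Real.exp (-v ^ 2 - 1) := by
      rw [← Real.exp_add, Real.exp_le_exp]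
      have h7 : Real.exp 1 * v * s ≤ 3 * v * s := by
        have := Real.exp_one_lt_d9
        have h8 : Real.exp 1 ≤ 3 := by linarith
        gcongr
      linarith
    have h9 : Real.exp (-v ^ 2 - 1) ≤ Real.exp (v * s - v ^ 2) / 2 := by
      have h10 : Real.exp (-v ^ 2 - 1) = Real.exp (-v ^ 2) * Real.exp (-1) := by
        rw [← Real.exp_add]; ring_nf
      have h11 : Real.exp (-1) ≤ 1 / 2 := by
        rw [Real.exp_neg, inv_le_comm₀ (Real.exp_pos _) (by norm_num)]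
        have := Real.exp_one_gt_d9
        norm_num
        linarith
      have h12 : Real.exp (-v ^ 2) ≤ Real.exp (v * s - v ^ 2) := by
        rw [Real.exp_le_exp]
        have : 0 ≤ v * s := by positivity
        linarith
      rw [h10]
      calc Real.exp (-v ^ 2) * Real.exp (-1) ≤ Real.exp (v * s - v ^ 2) * (1 / 2) := by gcongr
        _ = _ := by ring
    linarith
  linarith

/-- the count in terms of `Λ = log log x` -/
lemma count2 (P : Finset ℕ) (K x z R : ℕ) (y κ η h t c Λ C0 W : ℝ)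
    (hP : ∀ p ∈ P, p.Prime ∧ K < p ∧ p ≤ z) (hz : 1 ≤ z) (hK : 1 ≤ K) (hKx : K ≤ x) (hy : 1 < y)
    (hη : 0 < η) (hη2 : η < 1 / 2) (ht : 0 < t) (ht1 : t ≤ 1) (hyt : 1 ≤ y / (1 + t))
    (hC0 : 0 ≤ C0) (hΛ : 0 ≤ Λ)
    (hs1 : (1 - 2 * η) * Λ ≤ ∑ p ∈ P, 1 / (p : ℝ)) (hs2 : ∑ p ∈ P, 1 / (p : ℝ) ≤ Λ + C0)
    (hR : 3 * (y - 1) * (Λ + C0) + (y - 1) ^ 2 + 1 ≤ R)
    (hE1 : (y + h) * Real.log y - (y - 1) * (1 - 2 * η) - κ ≤ -c)
    (hE3 : y * t - (y + h) * Real.log (1 + t) ≤ -c)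
    (hE4 : (y * (1 / (1 + t)) - y) * (1 - 2 * η) + (y - h) * Real.log (1 + t) ≤ -c)
    (hKκ : Real.exp (κ * Λ) / 2 ≤ K) (hW : 3 * (z : ℝ) ^ (2 * R) ≤ W) (hWx : W ≤ x)
    (B : Finset ℕ)
    (hB : ∀ n ∈ B, K < n ∧ n ≤ x ∧ ∀ k ∈ Icc 1 K,
      ¬ ((y - h) * Λ ≤ (om P (n - k) : ℝ) ∧ (om P (n - k) : ℝ) ≤ (y + h) * Λ)) :
    (B.card : ℝ) ≤ Real.exp ((y - 1) ^ 2) * (12 + 4 * Real.exp (y * C0)) *
      (x * Real.exp (-(c * Λ))) + W := by
  have hv : 0 < y - 1 := by linarith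
  have hy0 : 0 < y := by linarith
  have hσ0 : 0 < 1 / (1 + t) := by positivity
  have hmain := finite_count P K x z R (y - 1) (1 + t) (1 / (1 + t)) ((y - h) * Λ) ((y + h) * Λ)
    hP hz hK hKx hv (by linarith) hσ0 (by rw [div_le_one (by linarith)]; linarith)
    (by rw [add_sub_cancel, mul_one_div]; exact hyt) B hB
  set s := ∑ p ∈ P, 1 / (p : ℝ) with hs
  set v := y - 1 with hvdef
  have hyv : 1 + v = y := by rw [hvdef]; ring
  rw [hyv] at hmain
  have hP' : ∀ p ∈ P, p.Prime := fun p hp => (hP p hp).1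
  have hx0 : (0 : ℝ) ≤ x := Nat.cast_nonneg x
  have hM : Real.exp (v * s - v ^ 2) / 2 ≤ M P R v := by
    apply M_lower P R v hP' hv.le
    have : 3 * v * s ≤ 3 * v * (Λ + C0) := by gcongr
    linarith
  have hMpos : 0 < M P R v := lt_of_lt_of_le (by positivity) hM
  have hKpos : (0 : ℝ) < K := by exact_mod_cast hK
  have hz1 : (1 : ℝ) ≤ z := by exact_mod_cast hz
  have hzR : (z : ℝ) ^ R ≤ (z : ℝ) ^ (2 * R) := pow_le_pow_right₀ hz1 (by omega)
  have hzR0 : (0 : ℝ) ≤ (z : ℝ) ^ R := by positivity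
  -- second term
  have hT2 : (z : ℝ) ^ (2 * R) + 2 * (z : ℝ) ^ R ≤ W := by linarith
  have hzx : (z : ℝ) ^ R ≤ x := by linarith
  -- first term
  have hT1 : y ^ ((y + h) * Λ) * (x + (z : ℝ) ^ R) / (K * M P R v) ≤
      8 * Real.exp (v ^ 2) * (x * Real.exp (-(c * Λ))) := by
    rw [div_le_iff₀ (by positivity)]
    have h1 : y ^ ((y + h) * Λ) = Real.exp ((y + h) * Λ * Real.log y) := by
      rw [Real.rpow_def_of_pos hy0]; ring_nf
    have h2 : Real.exp (κ * Λ) / 2 * (Real.exp (v * s - v ^ 2) / 2) ≤ K * M P R v := by gcongr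
    have h3 : 8 * Real.exp (v ^ 2) * (x * Real.exp (-(c * Λ))) *
        (Real.exp (κ * Λ) / 2 * (Real.exp (v * s - v ^ 2) / 2)) ≤
        8 * Real.exp (v ^ 2) * (x * Real.exp (-(c * Λ))) * (K * M P R v) := by gcongr
    refine le_trans ?_ h3
    have h4 : 8 * Real.exp (v ^ 2) * (x * Real.exp (-(c * Λ))) *
        (Real.exp (κ * Λ) / 2 * (Real.exp (v * s - v ^ 2) / 2)) =
        2 * x * Real.exp (v ^ 2 + -(c * Λ) + κ * Λ + (v * s - v ^ 2)) := by
      rw [Real.exp_add, Real.exp_add, Real.exp_add]; ring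
    rw [h4, h1]
    have h5 : Real.exp ((y + h) * Λ * Real.log y) ≤
        Real.exp (v ^ 2 + -(c * Λ) + κ * Λ + (v * s - v ^ 2)) := by
      rw [Real.exp_le_exp]
      have h6 : ((y + h) * Real.log y - v * (1 - 2 * η) - κ) * Λ ≤ -c * Λ := by gcongr
      have h7 : v * ((1 - 2 * η) * Λ) ≤ v * s := by gcongr
      nlinarith
    calc Real.exp ((y + h) * Λ * Real.log y) * (x + (z : ℝ) ^ R)
        ≤ Real.exp (v ^ 2 + -(c * Λ) + κ * Λ + (v * s - v ^ 2)) * (x + x) := by gcongr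
      _ = _ := by ring
  -- the tilted terms
  have hMi : 2 * x / M P R v ≤ 4 * x * Real.exp (v ^ 2) * Real.exp (-(v * s)) := by
    rw [div_le_iff₀ hMpos]
    have h3 : 4 * x * Real.exp (v ^ 2) * Real.exp (-(v * s)) * (Real.exp (v * s - v ^ 2) / 2) ≤
        4 * x * Real.exp (v ^ 2) * Real.exp (-(v * s)) * M P R v := by gcongr
    refine le_trans (le_of_eq ?_) h3
    have h4 : 4 * x * Real.exp (v ^ 2) * Real.exp (-(v * s)) * (Real.exp (v * s - v ^ 2) / 2) =
        2 * x * Real.exp (v ^ 2 + -(v * s) + (v * s - v ^ 2)) := by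
      rw [Real.exp_add, Real.exp_add]; ring
    rw [h4]
    have : v ^ 2 + -(v * s) + (v * s - v ^ 2) = 0 := by ring
    rw [this, Real.exp_zero, mul_one]
  have hT3 : (1 + t) ^ (-((y + h) * Λ)) * pr P (y * (1 + t) - 1) ≤
      Real.exp (v * s) * (Real.exp (y * C0) * Real.exp (-(c * Λ))) := by
    have h1 : (1 + t) ^ (-((y + h) * Λ)) = Real.exp (-((y + h) * Λ) * Real.log (1 + t)) := by
      rw [Real.rpow_def_of_pos (by linarith)]; ring_nf
    have h2 : pr P (y * (1 + t) - 1) ≤ Real.exp ((y * (1 + t) - 1) * s) := by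
      apply pr_le
      nlinarith
    rw [h1]
    calc Real.exp (-((y + h) * Λ) * Real.log (1 + t)) * pr P (y * (1 + t) - 1)
        ≤ Real.exp (-((y + h) * Λ) * Real.log (1 + t)) * Real.exp ((y * (1 + t) - 1) * s) := by
          gcongr
      _ = Real.exp (-((y + h) * Λ) * Real.log (1 + t) + (y * (1 + t) - 1) * s) := by
          rw [Real.exp_add]
      _ ≤ Real.exp (v * s + (y * C0 + -(c * Λ))) := by
          rw [Real.exp_le_exp]
          have h3 : (y * t - (y + h) * Real.log (1 + t)) * Λ ≤ -c * Λ := by gcongr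
          have h4 : y * t * s ≤ y * t * (Λ + C0) := by gcongr
          have h5 : y * t * C0 ≤ y * 1 * C0 := by gcongr
          have h6 : v = y - 1 := hvdef
          rw [h6]
          nlinarith
      _ = _ := by rw [Real.exp_add, Real.exp_add]
  have hT4 : (1 / (1 + t)) ^ (-((y - h) * Λ)) * pr P (y * (1 / (1 + t)) - 1) ≤
      Real.exp (v * s) * Real.exp (-(c * Λ)) := by
    have h1 : (1 / (1 + t)) ^ (-((y - h) * Λ)) = Real.exp ((y - h) * Λ * Real.log (1 + t)) := by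
      rw [Real.rpow_def_of_pos (by positivity), one_div, Real.log_inv]; ring_nf
    have h2 : pr P (y * (1 / (1 + t)) - 1) ≤ Real.exp ((y * (1 / (1 + t)) - 1) * s) := by
      apply pr_le
      rw [mul_one_div]; linarith
    rw [h1]
    calc Real.exp ((y - h) * Λ * Real.log (1 + t)) * pr P (y * (1 / (1 + t)) - 1)
        ≤ Real.exp ((y - h) * Λ * Real.log (1 + t)) *
          Real.exp ((y * (1 / (1 + t)) - 1) * s) := by gcongr
      _ = Real.exp ((y - h) * Λ * Real.log (1 + t) + (y * (1 / (1 + t)) - 1) * s) := by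
          rw [Real.exp_add]
      _ ≤ Real.exp (v * s + -(c * Λ)) := by
          rw [Real.exp_le_exp]
          have h3 : ((y * (1 / (1 + t)) - y) * (1 - 2 * η) + (y - h) * Real.log (1 + t)) * Λ ≤
            -c * Λ := by gcongr
          have h4 : y * (1 / (1 + t)) - y ≤ 0 := by
            have : y * (1 / (1 + t)) ≤ y * 1 := by
              gcongr
              rw [div_le_one (by linarith)]; linarith
            linarith
          have h5 : (y * (1 / (1 + t)) - y) * s ≤ (y * (1 / (1 + t)) - y) * ((1 - 2 * η) * Λ) :=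
            mul_le_mul_of_nonpos_left hs1 h4
          have h6 : v = y - 1 := hvdef
          rw [h6]
          nlinarith
      _ = _ := by rw [Real.exp_add]
  have hT34 : (2 * x / M P R v) * ((1 + t) ^ (-((y + h) * Λ)) * pr P (y * (1 + t) - 1) +
      (1 / (1 + t)) ^ (-((y - h) * Λ)) * pr P (y * (1 / (1 + t)) - 1)) ≤
      4 * Real.exp (v ^ 2) * (Real.exp (y * C0) + 1) * (x * Real.exp (-(c * Λ))) := by
    have h1 : (1 + t) ^ (-((y + h) * Λ)) * pr P (y * (1 + t) - 1) +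
      (1 / (1 + t)) ^ (-((y - h) * Λ)) * pr P (y * (1 / (1 + t)) - 1) ≤
      Real.exp (v * s) * (Real.exp (y * C0) * Real.exp (-(c * Λ))) +
        Real.exp (v * s) * Real.exp (-(c * Λ)) := add_le_add hT3 hT4
    have h2 : 0 ≤ 2 * x / M P R v := by positivity
    calc _ ≤ (2 * x / M P R v) * (Real.exp (v * s) * (Real.exp (y * C0) * Real.exp (-(c * Λ))) +
        Real.exp (v * s) * Real.exp (-(c * Λ))) := by gcongr
      _ ≤ (4 * x * Real.exp (v ^ 2) * Real.exp (-(v * s))) *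
        (Real.exp (v * s) * (Real.exp (y * C0) * Real.exp (-(c * Λ))) +
        Real.exp (v * s) * Real.exp (-(c * Λ))) := by gcongr
      _ = 4 * Real.exp (v ^ 2) * (Real.exp (y * C0) + 1) * (x * Real.exp (-(c * Λ))) *
        (Real.exp (-(v * s)) * Real.exp (v * s)) := by ring
      _ = _ := by rw [← Real.exp_add, neg_add_cancel, Real.exp_zero, mul_one]
  calc (B.card : ℝ) ≤ _ := hmain
    _ ≤ 8 * Real.exp (v ^ 2) * (x * Real.exp (-(c * Λ))) + W +
      4 * Real.exp (v ^ 2) * (Real.exp (y * C0) + 1) * (x * Real.exp (-(c * Λ))) := by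
        gcongr
    _ = _ := by ring

end Pool.Agent.helper43.NO
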